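import Mathlib
import Pool.Agent.H21.PierceBase

set_option autoImplicit false
open scoped Pointwise

namespace Pool.Agent.Results.MP_71837e_co.FourPoints

open Pool.Agent.H21.PierceBase

theorem dt_sub_left (x y v : EuclideanSpace ℝ (Fin 2)) : dt (x - y) v = dt x v - dt y v := by
  simp [dt]; ring

theorem dt_sub_right (u x y : EuclideanSpace ℝ (Fin 2)) : dt u (x - y) = dt u x - dt u y := by
  simp [dt]; ring

/-- Nondegenerate case. -/
theorem nondeg (n : ℕ) (hn : 2 ≤ n) (K : Set (EuclideanSpace ℝ (Fin 2))) (hKconv : Convex ℝ K)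
    (F : Fin n → Set (EuclideanSpace ℝ (Fin 2))) (hF : ∀ i, (F i).Nonempty)
    (hX : ∀ i j : Fin n, i ≠ j → ∀ a ∈ F i, ∀ b ∈ F j, ((a +ᵥ K) ∩ (b +ᵥ K)).Nonempty)
    (e₁ q₁ e₂ q₂ : EuclideanSpace ℝ (Fin 2)) (he₁ : e₁ ∈ K) (hq₁ : q₁ ∈ K) (he₂ : e₂ ∈ K)
    (hq₂ : q₂ ∈ K) (hpos : 0 < dt (e₁ - q₁) (e₂ - q₂))
    (hmax : ∀ a ∈ K, ∀ b ∈ K, ∀ c ∈ K, ∀ d ∈ K, dt (a - b) (c - d) ≤ dt (e₁ - q₁) (e₂ - q₂)) :
    ∃ m : Fin n, ∃ P : Finset (EuclideanSpace ℝ (Fin 2)), P.card ≤ 4 ∧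
        ∀ i : Fin n, i ≠ m → ∀ a ∈ F i, ∃ p ∈ P, p ∈ a +ᵥ K := by
  classical
  obtain ⟨Δ, hΔ⟩ : ∃ Δ, Δ = dt (e₁ - q₁) (e₂ - q₂) := ⟨_, rfl⟩
  rw [← hΔ] at hpos
  obtain ⟨f, hf⟩ : ∃ f : EuclideanSpace ℝ (Fin 2) → ℝ, f = fun x => dt x (e₂ - q₂) / Δ :=
    ⟨_, rfl⟩
  obtain ⟨g, hg⟩ : ∃ g : EuclideanSpace ℝ (Fin 2) → ℝ, g = fun x => dt (e₁ - q₁) x / Δ :=
    ⟨_, rfl⟩
  have hxy : ∀ x, x = f x • (e₁ - q₁) + g x • (e₂ - q₂) := by
    intro x
    have h := dt_identity x (e₁ - q₁) (e₂ - q₂)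
    rw [← hΔ] at h
    apply smul_right_injective _ hpos.ne'
    simp only
    rw [h, smul_add, smul_smul, smul_smul, hf, hg]
    simp only
    rw [mul_div_cancel₀ _ hpos.ne', mul_div_cancel₀ _ hpos.ne']
  obtain ⟨m, s, t, c, d, hs, ht, hst, hm⟩ := select_two n hn F hF f g (by
    intro i j hij a ha b hb
    obtain ⟨p, hp1, hp2⟩ := hX i j hij a ha b hb
    rw [mem_vadd] at hp1 hp2
    have h := hmax _ hp2 _ hp1 _ he₂ _ hq₂
    rw [← hΔ] at h
    have e : p - b - (p - a) = a - b := by abel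
    rw [e, dt_sub_left] at h
    rw [hf]
    simp only
    rw [← sub_div, div_le_one hpos]
    exact h) (by
    intro i j hij a ha b hb
    obtain ⟨p, hp1, hp2⟩ := hX i j hij a ha b hb
    rw [mem_vadd] at hp1 hp2
    have h := hmax _ he₁ _ hq₁ _ hp2 _ hp1
    rw [← hΔ] at h
    have e : p - b - (p - a) = a - b := by abel
    rw [e, dt_sub_right] at h
    rw [hg]
    simp only
    rw [← sub_div, div_le_one hpos]
    exact h)
  let pt : ℝ → ℝ → EuclideanSpace ℝ (Fin 2) := fun x y =>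
    (c + x) • (e₁ - q₁) + (d + y) • (e₂ - q₂) + s • q₁ + t • q₂
  refine ⟨m, {pt 0 0, pt 0 t, pt s 0, pt s t}, Finset.card_le_four, ?_⟩
  intro i hi a ha
  obtain ⟨h1, h2⟩ := hm i hi a ha
  rw [abs_le] at h1 h2
  have key : ∀ x y : ℝ, 0 ≤ c + x - f a → c + x - f a ≤ s → 0 ≤ d + y - g a →
      d + y - g a ≤ t → pt x y ∈ a +ᵥ K := by
    intro x y hx1 hx2 hy1 hy2
    rw [mem_vadd]
    have h := box_mem K hKconv e₁ q₁ e₂ q₂ he₁ hq₁ he₂ hq₂ s t _ _ hst hx1 hx2 hy1 hy2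
    convert h using 1
    have e := hxy a
    simp only [pt]
    conv_lhs => rw [e]
    module
  rcases le_total (f a) c with hfa | hfa <;> rcases le_total (g a) d with hga | hga
  · exact ⟨pt 0 0, by simp, key 0 0 (by linarith) (by linarith) (by linarith) (by linarith)⟩
  · exact ⟨pt 0 t, by simp, key 0 t (by linarith) (by linarith) (by linarith) (by linarith)⟩
  · exact ⟨pt s 0, by simp, key s 0 (by linarith) (by linarith) (by linarith) (by linarith)⟩
  · exact ⟨pt s t, by simp, key s t (by linarith) (by linarith) (by linarith) (by linarith)⟩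

/-- Degenerate case: the body lies on a line; one point is enough. -/
theorem degen (n : ℕ) (hn : 2 ≤ n) (K : Set (EuclideanSpace ℝ (Fin 2))) (hKc : IsCompact K)
    (hKconv : Convex ℝ K) (hKne : K.Nonempty)
    (F : Fin n → Set (EuclideanSpace ℝ (Fin 2))) (hF : ∀ i, (F i).Nonempty)
    (hX : ∀ i j : Fin n, i ≠ j → ∀ a ∈ F i, ∀ b ∈ F j, ((a +ᵥ K) ∩ (b +ᵥ K)).Nonempty)
    (hdt : ∀ a ∈ K, ∀ b ∈ K, ∀ c ∈ K, ∀ d ∈ K, dt (a - b) (c - d) ≤ 0) :
    ∃ m : Fin n, ∃ P : Finset (EuclideanSpace ℝ (Fin 2)), P.card ≤ 1 ∧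
        ∀ i : Fin n, i ≠ m → ∀ a ∈ F i, ∃ p ∈ P, p ∈ a +ᵥ K := by
  obtain ⟨⟨e, q⟩, ⟨he, hq⟩, hmax⟩ := (hKc.prod hKc).exists_isMaxOn (hKne.prod hKne)
    (f := fun x => ‖x.1 - x.2‖) (by fun_prop)
  have hmax' : ∀ a ∈ K, ∀ b ∈ K, ‖a - b‖ ≤ ‖e - q‖ := by
    intro a ha b hb
    exact isMaxOn_iff.mp hmax (a, b) (Set.mk_mem_prod ha hb)
  simp only at he hq
  by_cases hz : e - q = 0
  · -- the body is a point
    obtain ⟨m⟩ : Nonempty (Fin n) := ⟨⟨0, by omega⟩⟩
    obtain ⟨b, hb⟩ := hF m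
    refine ⟨m, {b + e}, by simp, ?_⟩
    intro i hi a ha
    refine ⟨b + e, by simp, ?_⟩
    obtain ⟨p, hp1, hp2⟩ := hX i m hi a ha b hb
    rw [mem_vadd] at hp1 hp2
    have h1 := hmax' _ hp1 _ hp2
    rw [hz, norm_zero] at h1
    have h2 : p - a - (p - b) = 0 := norm_le_zero_iff.mp h1
    have h3 : b = a := by
      have : p - a - (p - b) = b - a := by abel
      rw [this] at h2
      exact sub_eq_zero.mp h2
    rw [mem_vadd, h3]
    simpa using he
  · obtain ⟨u, hu⟩ : ∃ u, u = e - q := ⟨_, rfl⟩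
    rw [← hu] at hz hmax'
    have hN : 0 < ‖u‖ ^ 2 := by positivity
    obtain ⟨f, hf⟩ : ∃ f : EuclideanSpace ℝ (Fin 2) → ℝ,
      f = fun x => (x 0 * u 0 + x 1 * u 1) / ‖u‖ ^ 2 := ⟨_, rfl⟩
    have hnorm : ‖u‖ ^ 2 = u 0 * u 0 + u 1 * u 1 := by
      rw [EuclideanSpace.norm_sq_eq]
      simp [Fin.sum_univ_two, sq]
    have hfs : ∀ x y, f (x - y) = f x - f y := by
      intro x y
      rw [hf]
      simp only [PiLp.sub_apply]
      rw [← sub_div]
      congr 1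
      ring
    -- cross differences are multiples of u
    have hcross : ∀ i j : Fin n, i ≠ j → ∀ a ∈ F i, ∀ b ∈ F j,
        a - b = f (a - b) • u ∧ f (a - b) ≤ 1 := by
      intro i j hij a ha b hb
      obtain ⟨p, hp1, hp2⟩ := hX i j hij a ha b hb
      rw [mem_vadd] at hp1 hp2
      have e1 : p - b - (p - a) = a - b := by abel
      have d1 : dt (a - b) u = 0 := by
        apply le_antisymm
        · have := hdt _ hp2 _ hp1 _ he _ hq
          rwa [e1, ← hu] at this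
        · have := hdt _ hp1 _ hp2 _ he _ hq
          have e2 : p - a - (p - b) = -(a - b) := by abel
          rw [e2, ← hu] at this
          have e3 : dt (-(a - b)) u = - dt (a - b) u := by simp [dt]; ring
          rw [e3] at this
          linarith
      have n1 : ‖a - b‖ ≤ ‖u‖ := by
        have := hmax' _ hp2 _ hp1
        rwa [e1] at this
      have par : a - b = f (a - b) • u := by
        apply smul_right_injective _ hN.ne'
        simp only
        rw [hf]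
        simp only
        rw [smul_smul, mul_div_cancel₀ _ hN.ne', hnorm]
        unfold dt at d1
        ext k
        fin_cases k
        · simp only [PiLp.smul_apply, smul_eq_mul, Fin.zero_eta]
          linear_combination (-(u 1)) * (-d1)
        · simp only [PiLp.smul_apply, smul_eq_mul, Fin.mk_one]
          linear_combination ((u 0)) * (-d1)
      refine ⟨par, ?_⟩
      by_contra hgt
      push Not at hgt
      have h5 : ‖a - b‖ = |f (a - b)| * ‖u‖ := by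
        conv_lhs => rw [par]
        rw [norm_smul, Real.norm_eq_abs]
      have h6 : 1 < |f (a - b)| := lt_of_lt_of_le hgt (le_abs_self _)
      have h7 : 0 < ‖u‖ := norm_pos_iff.mpr hz
      nlinarith
    obtain ⟨m, δ, c, h0, h1, h2, h3⟩ := select_one n hn (fun i => f '' (F i))
      (fun i => (hF i).image f) (by
        rintro i j hij _ ⟨a, ha, rfl⟩ _ ⟨b, hb, rfl⟩
        rw [← hfs]
        exact (hcross i j hij a ha b hb).2)
    obtain ⟨b, hb⟩ := hF m
    refine ⟨m, {b + (c - f b + 1 / 2) • u + q}, by simp, ?_⟩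
    intro i hi a ha
    refine ⟨_, Finset.mem_singleton_self _, ?_⟩
    rw [mem_vadd]
    have ha1 := h2 i hi _ ⟨a, ha, rfl⟩
    rw [abs_le] at ha1
    have ha2 := (hcross i m hi a ha b hb).1
    rw [hfs] at ha2
    have : b + (c - f b + 1 / 2) • u + q - a = q + (1 / 2 + c - f a) • (e - q) := by
      have : a = b + (f a - f b) • u := by rw [← ha2]; abel
      conv_lhs => rw [this]
      rw [← hu]
      module
    rw [this]
    have h4 : q + (1 / 2 + c - f a) • (e - q) = (1 - (1 / 2 + c - f a)) • q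
      + (1 / 2 + c - f a) • e := by module
    rw [h4]
    exact hKconv hq he (by linarith) (by linarith) (by ring)

/-- For every compact convex plane set and all `n ≥ 2` nonempty families of its translates in
which translates from different families always meet, there is an index `m` such that four points
pierce all translates in the families other than the `m`-th. -/
theorem result :
    ∀ (n : ℕ), 2 ≤ n →
    ∀ (K : Set (EuclideanSpace ℝ (Fin 2))), IsCompact K → Convex ℝ K →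
    ∀ (F : Fin n → Set (EuclideanSpace ℝ (Fin 2))),
      (∀ i, (F i).Nonempty) →
      (∀ i j : Fin n, i ≠ j → ∀ a ∈ F i, ∀ b ∈ F j, ((a +ᵥ K) ∩ (b +ᵥ K)).Nonempty) →
      ∃ m : Fin n, ∃ P : Finset (EuclideanSpace ℝ (Fin 2)), P.card ≤ 4 ∧
        ∀ i : Fin n, i ≠ m → ∀ a ∈ F i, ∃ p ∈ P, p ∈ a +ᵥ K := by
  intro n hn K hKc hKconv F hF hX
  have hKne : K.Nonempty := by
    obtain ⟨a, ha⟩ := hF ⟨0, by omega⟩
    obtain ⟨b, hb⟩ := hF ⟨1, by omega⟩
    obtain ⟨p, hp, _⟩ := hX ⟨0, by omega⟩ ⟨1, by omega⟩ (by simp) a ha b hb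
    rw [mem_vadd] at hp
    exact ⟨_, hp⟩
  obtain ⟨⟨⟨e₁, q₁⟩, ⟨e₂, q₂⟩⟩, ⟨⟨he₁, hq₁⟩, ⟨he₂, hq₂⟩⟩, hmax⟩ :=
    ((hKc.prod hKc).prod (hKc.prod hKc)).exists_isMaxOn ((hKne.prod hKne).prod (hKne.prod hKne))
    (f := fun x => dt (x.1.1 - x.1.2) (x.2.1 - x.2.2)) (by unfold dt; fun_prop)
  simp only at he₁ hq₁ he₂ hq₂
  have hmax' : ∀ a ∈ K, ∀ b ∈ K, ∀ c ∈ K, ∀ d ∈ K,
      dt (a - b) (c - d) ≤ dt (e₁ - q₁) (e₂ - q₂) := by
    intro a ha b hb c hc d hd
    exact isMaxOn_iff.mp hmax ((a, b), (c, d))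
      (Set.mk_mem_prod (Set.mk_mem_prod ha hb) (Set.mk_mem_prod hc hd))
  rcases lt_or_ge 0 (dt (e₁ - q₁) (e₂ - q₂)) with hpos | hneg
  · exact nondeg n hn K hKconv F hF hX e₁ q₁ e₂ q₂ he₁ hq₁ he₂ hq₂ hpos hmax'
  · obtain ⟨m, P, hP, h⟩ := degen n hn K hKc hKconv hKne F hF hX
      (fun a ha b hb c hc d hd => (hmax' a ha b hb c hc d hd).trans hneg)
    exact ⟨m, P, hP.trans (by norm_num), h⟩

end Pool.Agent.Results.MP_71837e_co.FourPoints
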